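import Pool.Agent.TH612.GS.Stm3

/-!
Project GF, part TMV: mean value theorem for sums of characters in several variables.
-/

set_option autoImplicit false

namespace Pool.Agent.TH738.GF

open Complex Filter Topology MeasureTheory Set
open Pool.Agent.TH612.GS

noncomputable section

theorem sum_cons {M : Type} [AddCommMonoid M] {k X : ℕ} (f : (Fin (k + 1) → ℕ) → M) :
    ∑ n ∈ Fintype.piFinset (fun _ : Fin (k + 1) => Finset.Icc 1 X), f n =
      ∑ m ∈ Finset.Icc 1 X, ∑ n ∈ Fintype.piFinset (fun _ : Fin k => Finset.Icc 1 X),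
        f (Fin.cons m n) := by
  rw [← Finset.sum_product']
  refine Finset.sum_nbij' (fun n => (n 0, Fin.tail n)) (fun p => Fin.cons p.1 p.2) ?_ ?_ ?_ ?_ ?_
  · intro n hn
    rw [Fintype.mem_piFinset] at hn
    rw [Finset.mem_product, Fintype.mem_piFinset]
    exact ⟨hn 0, fun i => hn i.succ⟩
  · intro p hp
    rw [Finset.mem_product, Fintype.mem_piFinset] at hp
    rw [Fintype.mem_piFinset]
    intro i
    refine Fin.cases ?_ (fun j => ?_) i
    · simpa using hp.1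
    · simpa using hp.2 j
  · intro n _
    exact Fin.cons_self_tail n
  · intro p _
    simp
  · intro n _
    simp only [Fin.cons_self_tail]

theorem conj_pow (n : ℕ) (u : ℝ) :
    (n : ℂ) ^ (-(I * (u : ℂ))) = (starRingEnd ℂ) ((n : ℂ) ^ (I * (u : ℂ))) := by
  have h1 : (starRingEnd ℂ) (I * (u : ℂ)) = -(I * (u : ℂ)) := by
    rw [map_mul, conj_I, conj_ofReal, neg_mul]
  have h2 := cpow_conj (n : ℂ) (I * (u : ℂ)) (by
    rw [natCast_arg]
    exact Real.pi_pos.ne)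
  rw [h1, conj_natCast] at h2
  exact h2

theorem cont1 {X : ℕ} (b : ℕ → ℂ) :
    Continuous fun y : ℝ => ∑ n ∈ Finset.Icc 1 X, b n * (n : ℂ) ^ (I * (y : ℂ)) := by
  refine continuous_finsetSum _ fun n hn => ?_
  have hn0 : (n : ℂ) ≠ 0 := by
    have := (Finset.mem_Icc.mp hn).1
    exact_mod_cast (by omega : n ≠ 0)
  exact continuous_const.mul ((continuous_const.mul continuous_ofReal).const_cpow (Or.inl hn0))

/-- one variable -/
theorem one {C : ℝ} (hC : 0 < C)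
    (h : ∀ (T : ℝ) (X : ℕ) (a : ℕ → ℂ), 1 ≤ T → (X : ℝ) ≤ T ^ 2 →
      ∫ u in (0:ℝ)..(2 * T), ‖∑ n ∈ Finset.Icc 1 X, a n * (n : ℂ) ^ (-(I * u))‖ ^ 2 ≤
        C * ∑ n ∈ Finset.Icc 1 X, (T + n) * ‖a n‖ ^ 2)
    (T : ℝ) (X : ℕ) (b : ℕ → ℂ) (hT : 4 ≤ T) (hX : (X : ℝ) ≤ 4 * T) :
    ∫⁻ y in Icc 0 T, ENNReal.ofReal (‖∑ n ∈ Finset.Icc 1 X, b n * (n : ℂ) ^ (I * (y : ℂ))‖ ^ 2) ≤
      ENNReal.ofReal (5 * C * T * ∑ n ∈ Finset.Icc 1 X, ‖b n‖ ^ 2) := by
  have h1 := h T X (fun n => (starRingEnd ℂ) (b n)) (by linarith) (by nlinarith)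
  have e : ∀ u : ℝ, ‖∑ n ∈ Finset.Icc 1 X, (starRingEnd ℂ) (b n) * (n : ℂ) ^ (-(I * (u : ℂ)))‖ =
      ‖∑ n ∈ Finset.Icc 1 X, b n * (n : ℂ) ^ (I * (u : ℂ))‖ := by
    intro u
    rw [← norm_conj (∑ n ∈ Finset.Icc 1 X, b n * (n : ℂ) ^ (I * (u : ℂ))), map_sum]
    congr 1
    apply Finset.sum_congr rfl
    intro n _
    rw [map_mul, conj_pow]
  simp only [e, norm_conj] at h1
  have hc : Continuous fun y : ℝ =>
      ‖∑ n ∈ Finset.Icc 1 X, b n * (n : ℂ) ^ (I * (y : ℂ))‖ ^ 2 := (cont1 b).norm.pow 2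
  have h2 : ∑ n ∈ Finset.Icc 1 X, (T + n) * ‖b n‖ ^ 2 ≤
      5 * T * ∑ n ∈ Finset.Icc 1 X, ‖b n‖ ^ 2 := by
    rw [Finset.mul_sum]
    apply Finset.sum_le_sum
    intro n hn
    have hn2 : (n : ℝ) ≤ X := by exact_mod_cast (Finset.mem_Icc.mp hn).2
    have : T + n ≤ 5 * T := by linarith
    exact mul_le_mul_of_nonneg_right this (by positivity)
  have hint : IntegrableOn (fun y : ℝ =>
      ‖∑ n ∈ Finset.Icc 1 X, b n * (n : ℂ) ^ (I * (y : ℂ))‖ ^ 2) (Icc 0 (2 * T)) :=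
    hc.continuousOn.integrableOn_Icc
  calc ∫⁻ y in Icc 0 T,
        ENNReal.ofReal (‖∑ n ∈ Finset.Icc 1 X, b n * (n : ℂ) ^ (I * (y : ℂ))‖ ^ 2)
      ≤ ∫⁻ y in Icc 0 (2 * T),
        ENNReal.ofReal (‖∑ n ∈ Finset.Icc 1 X, b n * (n : ℂ) ^ (I * (y : ℂ))‖ ^ 2) :=
        lintegral_mono_set (Icc_subset_Icc le_rfl (by linarith))
    _ = ENNReal.ofReal (∫ y in Icc 0 (2 * T),
        ‖∑ n ∈ Finset.Icc 1 X, b n * (n : ℂ) ^ (I * (y : ℂ))‖ ^ 2) := by
        rw [ofReal_integral_eq_lintegral_ofReal hint (Eventually.of_forall fun y => by positivity)]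
    _ ≤ ENNReal.ofReal (5 * C * T * ∑ n ∈ Finset.Icc 1 X, ‖b n‖ ^ 2) := by
        apply ENNReal.ofReal_le_ofReal
        rw [integral_Icc_eq_integral_Ioc, ← intervalIntegral.integral_of_le (by linarith)]
        refine h1.trans ?_
        calc C * ∑ n ∈ Finset.Icc 1 X, (T + n) * ‖b n‖ ^ 2
            ≤ C * (5 * T * ∑ n ∈ Finset.Icc 1 X, ‖b n‖ ^ 2) :=
              mul_le_mul_of_nonneg_left h2 hC.le
          _ = _ := by ring

/-- the sum of characters in `k` variables -/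
def SC {k : ℕ} (X : ℕ) (a : (Fin k → ℕ) → ℂ) (β : Fin k → ℝ) : ℂ :=
  ∑ n ∈ Fintype.piFinset (fun _ : Fin k => Finset.Icc 1 X), a n * ∏ l, (n l : ℂ) ^ (I * (β l : ℂ))

theorem cont_SC {k : ℕ} (X : ℕ) (a : (Fin k → ℕ) → ℂ) : Continuous (SC X a) := by
  unfold SC
  refine continuous_finsetSum _ fun n hn => ?_
  refine continuous_const.mul (continuous_finsetProd _ fun l _ => ?_)
  have hn0 : ((n l : ℕ) : ℂ) ≠ 0 := by
    rw [Fintype.mem_piFinset] at hn
    have := (Finset.mem_Icc.mp (hn l)).1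
    exact_mod_cast (by omega : n l ≠ 0)
  exact (continuous_const.mul (continuous_ofReal.comp (continuous_apply l))).const_cpow (Or.inl hn0)

theorem SC_cons {k : ℕ} (X : ℕ) (a : (Fin (k + 1) → ℕ) → ℂ) (y : ℝ) (β : Fin k → ℝ) :
    SC X a (Fin.cons y β) =
      ∑ m ∈ Finset.Icc 1 X, SC X (fun n => a (Fin.cons m n)) β * (m : ℂ) ^ (I * (y : ℂ)) := by
  unfold SC
  rw [sum_cons]
  apply Finset.sum_congr rfl
  intro m _
  rw [Finset.sum_mul]
  apply Finset.sum_congr rfl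
  intro n _
  rw [Fin.prod_univ_succ]
  simp only [Fin.cons_zero, Fin.cons_succ]
  ring

theorem ind {C : ℝ} (hC : 0 < C)
    (h : ∀ (T : ℝ) (X : ℕ) (a : ℕ → ℂ), 1 ≤ T → (X : ℝ) ≤ T ^ 2 →
      ∫ u in (0:ℝ)..(2 * T), ‖∑ n ∈ Finset.Icc 1 X, a n * (n : ℂ) ^ (-(I * u))‖ ^ 2 ≤
        C * ∑ n ∈ Finset.Icc 1 X, (T + n) * ‖a n‖ ^ 2)
    (T : ℝ) (X : ℕ) (hT : 4 ≤ T) (hX : (X : ℝ) ≤ 4 * T) : ∀ (k : ℕ) (a : (Fin k → ℕ) → ℂ),
    ∫⁻ β, ENNReal.ofReal (‖SC X a β‖ ^ 2) ∂(mP (Fin k) T) ≤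
      ENNReal.ofReal ((5 * C) ^ k * T ^ k *
        ∑ n ∈ Fintype.piFinset (fun _ : Fin k => Finset.Icc 1 X), ‖a n‖ ^ 2) := by
  intro k
  induction k with
  | zero =>
    intro a
    have e : ∀ β : Fin 0 → ℝ, SC X a β = a default := by
      intro β
      unfold SC
      simp
      exact congrArg a (Subsingleton.elim _ _)
    simp only [e]
    rw [lintegral_const]
    have hm : mP (Fin 0) T univ = 1 := by
      unfold mP
      rw [Measure.pi_univ]
      simp
    rw [hm, mul_one]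
    apply ENNReal.ofReal_le_ofReal
    simp
    exact (congrArg (fun n => ‖a n‖ ^ 2) (Subsingleton.elim _ _)).le
  | succ k ih =>
    intro a
    have hT0 : 0 ≤ T := by linarith
    have hmp := measurePreserving_piFinSuccAbove
      (fun _ : Fin (k + 1) => (volume : Measure ℝ).restrict (Icc 0 T)) 0
    have hmeas : Measurable fun p : ℝ × (Fin k → ℝ) =>
        ENNReal.ofReal (‖SC X a (Fin.cons p.1 p.2)‖ ^ 2) := by
      apply Measurable.ennreal_ofReal
      apply Continuous.measurable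
      refine ((cont_SC X a).comp ?_).norm.pow 2
      refine continuous_pi fun i => ?_
      refine Fin.cases ?_ (fun j => ?_) i
      · simpa using continuous_fst
      · simp only [Fin.cons_succ]
        exact (continuous_apply j).comp continuous_snd
    have e1 : ∫⁻ β, ENNReal.ofReal (‖SC X a β‖ ^ 2) ∂(mP (Fin (k + 1)) T) =
        ∫⁻ p, ENNReal.ofReal (‖SC X a (Fin.cons p.1 p.2)‖ ^ 2)
          ∂(((volume : Measure ℝ).restrict (Icc 0 T)).prod (mP (Fin k) T)) := by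
      unfold mP
      rw [← hmp.lintegral_comp_emb (MeasurableEquiv.measurableEmbedding _)]
      apply lintegral_congr
      intro β
      congr 4
      funext i
      refine Fin.cases ?_ (fun j => ?_) i
      · simp [MeasurableEquiv.piFinSuccAbove]
      · simp [MeasurableEquiv.piFinSuccAbove]
        rfl
    have : SigmaFinite (mP (Fin k) T) := by unfold mP; infer_instance
    rw [e1, lintegral_prod_symm _ hmeas.aemeasurable]
    have hb : ∀ m : ℕ, Measurable fun β : Fin k → ℝ =>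
        ENNReal.ofReal (‖SC X (fun n => a (Fin.cons m n)) β‖ ^ 2) := fun m =>
      (((cont_SC X _).norm.pow 2).measurable).ennreal_ofReal
    calc ∫⁻ β, (∫⁻ y in Icc 0 T, ENNReal.ofReal (‖SC X a (Fin.cons y β)‖ ^ 2)) ∂(mP (Fin k) T)
        ≤ ∫⁻ β, ENNReal.ofReal (5 * C * T *
            ∑ m ∈ Finset.Icc 1 X, ‖SC X (fun n => a (Fin.cons m n)) β‖ ^ 2) ∂(mP (Fin k) T) := by
          apply lintegral_mono
          intro β
          have := one hC h T X (fun m => SC X (fun n => a (Fin.cons m n)) β) hT hX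
          simpa only [SC_cons] using this
      _ = ENNReal.ofReal (5 * C * T) * ∑ m ∈ Finset.Icc 1 X,
            ∫⁻ β, ENNReal.ofReal (‖SC X (fun n => a (Fin.cons m n)) β‖ ^ 2) ∂(mP (Fin k) T) := by
          rw [← lintegral_finsetSum _ (fun m _ => hb m), ← lintegral_const_mul _
            (Finset.measurable_fun_sum _ fun m _ => hb m)]
          apply lintegral_congr
          intro β
          rw [ENNReal.ofReal_mul (by positivity), ENNReal.ofReal_sum_of_nonneg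
            (fun m _ => by positivity)]
      _ ≤ ENNReal.ofReal (5 * C * T) * ∑ m ∈ Finset.Icc 1 X,
            ENNReal.ofReal ((5 * C) ^ k * T ^ k *
              ∑ n ∈ Fintype.piFinset (fun _ : Fin k => Finset.Icc 1 X),
                ‖a (Fin.cons m n)‖ ^ 2) := by
          gcongr with m _
          exact ih _
      _ = ENNReal.ofReal ((5 * C) ^ (k + 1) * T ^ (k + 1) *
            ∑ n ∈ Fintype.piFinset (fun _ : Fin (k + 1) => Finset.Icc 1 X), ‖a n‖ ^ 2) := by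
          rw [← ENNReal.ofReal_sum_of_nonneg (fun m _ => by positivity),
            ← ENNReal.ofReal_mul (by positivity), sum_cons, ← Finset.mul_sum]
          congr 1
          ring

theorem t_TMV (h : S_MV) : S_TMV := by
  obtain ⟨C, hC, h⟩ := h
  intro k
  refine ⟨(5 * C) ^ k, by positivity, fun T X a hT hX => ?_⟩
  exact ind hC h T X hT hX k a

end

end Pool.Agent.TH738.GF
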